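import Pool.Agent.H25.IACR.Sum

/-!
# Drawings of disjoint unions: gluing and restricting
-/

namespace Pool.Agent.H25.IACR

open Pool.Agent.H60.IACR

variable {V W : Type*} {G : SimpleGraph V} {H : SimpleGraph W}

instance finite_dart [Finite V] : Finite G.Dart :=
  Finite.of_injective (fun a : G.Dart => (a.fst, a.snd)) (by
    intro a b h
    exact SimpleGraph.Dart.ext _ _ h)

instance finite_piece [Finite V] (c : G.Dart → ℕ) : Finite (Piece G c) := by
  have : Finite (Σ a : G.Dart, Fin (c a + 1)) := inferInstance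
  refine Finite.of_injective
    (fun p : Piece G c => (⟨p.1.1, ⟨p.1.2, Nat.lt_succ_of_le p.2⟩⟩ : Σ a : G.Dart, Fin (c a + 1))) ?_
  rintro ⟨⟨a, n⟩, hn⟩ ⟨⟨b, m⟩, hm⟩ h
  simp only [Sigma.mk.injEq] at h
  obtain ⟨h1, h2⟩ := h
  subst h1
  have h3 := congrArg Fin.val (eq_of_heq h2)
  simp only at h3
  subst h3
  rfl

section Glue

variable (D1 : Drawing G) (D2 : Drawing H)

/-- crossing numbers of the disjoint union -/
noncomputable def sumCr : (G ⊕g H).Dart → ℕ := fun d => Sum.elim D1.cr D2.cr ((dartSum G H).symm d)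

lemma sumCr_dl (a : G.Dart) : sumCr D1 D2 (dl H a) = D1.cr a := by
  unfold sumCr; rw [dartSum_symm_dl]; rfl

lemma sumCr_dr (a : H.Dart) : sumCr D1 D2 (dr G a) = D2.cr a := by
  unfold sumCr; rw [dartSum_symm_dr]; rfl

/-- pieces of the disjoint union -/
noncomputable def es : Piece G D1.cr ⊕ Piece H D2.cr ≃ Piece (G ⊕g H) (sumCr D1 D2) :=
  pieceSum (sumCr_dl D1 D2) (sumCr_dr D1 D2)

/-- rotation of the disjoint union -/
noncomputable def sumRot : Equiv.Perm (Piece (G ⊕g H) (sumCr D1 D2)) :=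
  (es D1 D2).permCongr (Equiv.sumCongr D1.rot D2.rot)

lemma sumRot_inl (p : Piece G D1.cr) :
    sumRot D1 D2 (es D1 D2 (Sum.inl p)) = es D1 D2 (Sum.inl (D1.rot p)) := by
  rw [sumRot, Equiv.permCongr_apply, Equiv.symm_apply_apply]; rfl

lemma sumRot_inr (p : Piece H D2.cr) :
    sumRot D1 D2 (es D1 D2 (Sum.inr p)) = es D1 D2 (Sum.inr (D2.rot p)) := by
  rw [sumRot, Equiv.permCongr_apply, Equiv.symm_apply_apply]; rfl

lemma zpow_map {A B : Type*} (f : Equiv.Perm A) (g : Equiv.Perm B) (e : A → B)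
    (h : ∀ a, g (e a) = e (f a)) (n : ℤ) (a : A) : (g ^ n) (e a) = e ((f ^ n) a) := by
  have hs : ∀ a, g.symm (e a) = e (f.symm a) := by
    intro a
    rw [Equiv.symm_apply_eq, h, Equiv.apply_symm_apply]
  have hn : ∀ (n : ℕ) (a : A), (g ^ n) (e a) = e ((f ^ n) a) := by
    intro n
    induction n with
    | zero => intro a; rfl
    | succ n ih =>
      intro a
      rw [pow_succ', pow_succ', Equiv.Perm.mul_apply, Equiv.Perm.mul_apply, ih, h]
  rcases n with n | n
  · exact hn n a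
  · rw [zpow_negSucc, zpow_negSucc, Equiv.Perm.inv_eq_iff_eq, hn, ← Equiv.Perm.mul_apply,
      mul_inv_cancel]
    rfl

lemma sameCycle_map {A B : Type*} (f : Equiv.Perm A) (g : Equiv.Perm B) (e : A → B)
    (h : ∀ a, g (e a) = e (f a)) {a b : A} (hab : f.SameCycle a b) : g.SameCycle (e a) (e b) := by
  obtain ⟨n, hn⟩ := hab
  exact ⟨n, by rw [zpow_map f g e h, hn]⟩

lemma sameCycle_of_map {A B : Type*} (f : Equiv.Perm A) (g : Equiv.Perm B) (e : A → B)
    (h : ∀ a, g (e a) = e (f a)) (he : Function.Injective e) {a b : A}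
    (hab : g.SameCycle (e a) (e b)) : f.SameCycle a b := by
  obtain ⟨n, hn⟩ := hab
  exact ⟨n, he (by rw [← zpow_map f g e h, hn])⟩

/-- the disjoint union of two drawings -/
noncomputable def sumDrawing : Drawing (G ⊕g H) where
  cr := sumCr D1 D2
  cr_symm d := by
    rcases exists_dart d with ⟨a, rfl⟩ | ⟨b, rfl⟩
    · rw [dl_symm, sumCr_dl, sumCr_dl, D1.cr_symm]
    · rw [dr_symm, sumCr_dr, sumCr_dr, D2.cr_symm]
  rot := sumRot D1 D2
  rot_vertex p hp := by
    obtain ⟨x, rfl⟩ := (es D1 D2).surjective p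
    rcases x with x | x
    · rw [sumRot_inl]
      have h := D1.rot_vertex x hp
      exact ⟨h.1, congrArg Sum.inl h.2⟩
    · rw [sumRot_inr]
      have h := D2.rot_vertex x hp
      exact ⟨h.1, congrArg Sum.inr h.2⟩
  rot_sameCycle p q hp hq h := by
    obtain ⟨x, rfl⟩ := (es D1 D2).surjective p
    obtain ⟨y, rfl⟩ := (es D1 D2).surjective q
    rcases x with x | x <;> rcases y with y | y
    · exact sameCycle_map D1.rot _ (fun p => es D1 D2 (Sum.inl p)) (sumRot_inl D1 D2)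
        (D1.rot_sameCycle x y hp hq (Sum.inl.inj h))
    · cases h
    · cases h
    · exact sameCycle_map D2.rot _ (fun p => es D1 D2 (Sum.inr p)) (sumRot_inr D1 D2)
        (D2.rot_sameCycle x y hp hq (Sum.inr.inj h))
  rot_rot p hp := by
    obtain ⟨x, rfl⟩ := (es D1 D2).surjective p
    rcases x with x | x
    · rw [sumRot_inl, sumRot_inl]
      have h := D1.rot_rot x hp
      apply Prod.ext
      · exact congrArg (dl H) (congrArg Prod.fst h)
      · refine (congrArg Prod.snd h).trans ?_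
        change D1.cr x.1.1 + 1 - x.1.2 = sumCr D1 D2 (dl H x.1.1) + 1 - x.1.2
        rw [sumCr_dl]
    · rw [sumRot_inr, sumRot_inr]
      have h := D2.rot_rot x hp
      apply Prod.ext
      · exact congrArg (dr G) (congrArg Prod.fst h)
      · refine (congrArg Prod.snd h).trans ?_
        change D2.cr x.1.1 + 1 - x.1.2 = sumCr D1 D2 (dr G x.1.1) + 1 - x.1.2
        rw [sumCr_dr]
  rot_edge p hp := by
    obtain ⟨x, rfl⟩ := (es D1 D2).surjective p
    rcases x with x | x
    · rw [sumRot_inl]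
      have h := D1.rot_edge x hp
      intro he
      apply h
      rw [SimpleGraph.dart_edge_eq_iff] at he ⊢
      rcases he with he | he
      · exact Or.inl (dl_inj.mp he)
      · exact Or.inr (dl_inj.mp he)
    · rw [sumRot_inr]
      have h := D2.rot_edge x hp
      intro he
      apply h
      rw [SimpleGraph.dart_edge_eq_iff] at he ⊢
      rcases he with he | he
      · exact Or.inl (dr_inj.mp he)
      · exact Or.inr (dr_inj.mp he)

lemma sumDrawing_rev_inl (p : Piece G D1.cr) :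
    (sumDrawing D1 D2).rev (es D1 D2 (Sum.inl p)) = es D1 D2 (Sum.inl (D1.rev p)) := by
  apply Subtype.ext
  apply Prod.ext
  · rfl
  · change sumCr D1 D2 (dl H p.1.1) - p.1.2 = D1.cr p.1.1 - p.1.2
    rw [sumCr_dl]

lemma sumDrawing_rev_inr (p : Piece H D2.cr) :
    (sumDrawing D1 D2).rev (es D1 D2 (Sum.inr p)) = es D1 D2 (Sum.inr (D2.rev p)) := by
  apply Subtype.ext
  apply Prod.ext
  · rfl
  · change sumCr D1 D2 (dr G p.1.1) - p.1.2 = D2.cr p.1.1 - p.1.2
    rw [sumCr_dr]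

theorem eulerGenus_sumDrawing [Finite V] [Finite W] :
    (sumDrawing D1 D2).eulerGenus = D1.eulerGenus + D2.eulerGenus :=
  eulerGenus_add (sumDrawing D1 D2) D1 D2 (es D1 D2) (sumRot_inl D1 D2) (sumRot_inr D1 D2)
    (sumDrawing_rev_inl D1 D2) (sumDrawing_rev_inr D1 D2)

/-- the two drawings do not cross -/
lemma count_inl (a : G.Dart) (d : (G ⊕g H).Dart) :
    Nat.card {p : Piece (G ⊕g H) (sumDrawing D1 D2).cr // p.1.1 = dl H a ∧ 0 < p.1.2 ∧
      ((sumDrawing D1 D2).rot p).1.1 = d} =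
    Nat.card {p : Piece G D1.cr // p.1.1 = a ∧ 0 < p.1.2 ∧ dl H (D1.rot p).1.1 = d} := by
  symm
  refine Nat.card_congr (Equiv.ofBijective
    (fun p => ⟨es D1 D2 (Sum.inl p.1), congrArg (dl H) p.2.1, p.2.2.1, ?_⟩) ⟨?_, ?_⟩)
  · change (sumRot D1 D2 (es D1 D2 (Sum.inl p.1))).1.1 = d
    rw [sumRot_inl]
    exact p.2.2.2
  · rintro ⟨p, hp⟩ ⟨q, hq⟩ h
    have h1 := congrArg Subtype.val h
    have h2 : p = q := Sum.inl.inj ((es D1 D2).injective h1)
    exact Subtype.ext h2
  · rintro ⟨q, h1, h2, h3⟩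
    obtain ⟨x, rfl⟩ := (es D1 D2).surjective q
    rcases x with x | x
    · refine ⟨⟨x, dl_inj.mp h1, h2, ?_⟩, rfl⟩
      change (sumRot D1 D2 (es D1 D2 (Sum.inl x))).1.1 = d at h3
      rw [sumRot_inl] at h3
      exact h3
    · exact (dl_ne_dr _ _ h1.symm).elim

lemma count_inr (a : H.Dart) (d : (G ⊕g H).Dart) :
    Nat.card {p : Piece (G ⊕g H) (sumDrawing D1 D2).cr // p.1.1 = dr G a ∧ 0 < p.1.2 ∧
      ((sumDrawing D1 D2).rot p).1.1 = d} =
    Nat.card {p : Piece H D2.cr // p.1.1 = a ∧ 0 < p.1.2 ∧ dr G (D2.rot p).1.1 = d} := by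
  symm
  refine Nat.card_congr (Equiv.ofBijective
    (fun p => ⟨es D1 D2 (Sum.inr p.1), congrArg (dr G) p.2.1, p.2.2.1, ?_⟩) ⟨?_, ?_⟩)
  · change (sumRot D1 D2 (es D1 D2 (Sum.inr p.1))).1.1 = d
    rw [sumRot_inr]
    exact p.2.2.2
  · rintro ⟨p, hp⟩ ⟨q, hq⟩ h
    have h1 := congrArg Subtype.val h
    have h2 : p = q := Sum.inr.inj ((es D1 D2).injective h1)
    exact Subtype.ext h2
  · rintro ⟨q, h1, h2, h3⟩
    obtain ⟨x, rfl⟩ := (es D1 D2).surjective q
    rcases x with x | x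
    · exact (dl_ne_dr _ _ h1).elim
    · refine ⟨⟨x, dr_inj.mp h1, h2, ?_⟩, rfl⟩
      change (sumRot D1 D2 (es D1 D2 (Sum.inr x))).1.1 = d at h3
      rw [sumRot_inr] at h3
      exact h3

lemma card_zero {A : Type*} {q : A → Prop} (hq : ∀ p, ¬ q p) : Nat.card {p // q p} = 0 := by
  have : IsEmpty {p // q p} := ⟨fun p => hq p.1 p.2⟩
  exact Nat.card_of_isEmpty

/-- algebraically zero drawings can be put together -/
theorem algZero_sum (h1 : ∀ a b : G.Dart, Independent a b → D1.fromLeft a b = D1.fromRight a b)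
    (h2 : ∀ a b : H.Dart, Independent a b → D2.fromLeft a b = D2.fromRight a b)
    (a b : (G ⊕g H).Dart) (hab : Independent a b) :
    (sumDrawing D1 D2).fromLeft a b = (sumDrawing D1 D2).fromRight a b := by
  unfold Drawing.fromLeft Drawing.fromRight
  rcases exists_dart a with ⟨a, rfl⟩ | ⟨a, rfl⟩ <;> rcases exists_dart b with ⟨b, rfl⟩ | ⟨b, rfl⟩
  · rw [count_inl, count_inl, dl_symm]
    simp only [dl_inj]
    refine h1 a b ⟨?_, ?_, ?_, ?_⟩
    · exact fun h => hab.1 (congrArg Sum.inl h)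
    · exact fun h => hab.2.1 (congrArg Sum.inl h)
    · exact fun h => hab.2.2.1 (congrArg Sum.inl h)
    · exact fun h => hab.2.2.2 (congrArg Sum.inl h)
  · rw [count_inl, count_inl, dr_symm]
    rw [card_zero (fun p h => dl_ne_dr _ _ h.2.2), card_zero (fun p h => dl_ne_dr _ _ h.2.2)]
  · rw [count_inr, count_inr, dl_symm]
    rw [card_zero (fun p h => dl_ne_dr _ _ h.2.2.symm),
      card_zero (fun p h => dl_ne_dr _ _ h.2.2.symm)]
  · rw [count_inr, count_inr, dr_symm]
    simp only [dr_inj]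
    refine h2 a b ⟨?_, ?_, ?_, ?_⟩
    · exact fun h => hab.1 (congrArg Sum.inr h)
    · exact fun h => hab.2.1 (congrArg Sum.inr h)
    · exact fun h => hab.2.2.1 (congrArg Sum.inr h)
    · exact fun h => hab.2.2.2 (congrArg Sum.inr h)

end Glue

section Restrict

/-- the drawing without crossings with a given rotation -/
def flatDrawing (G : SimpleGraph V) (rot : Equiv.Perm (Piece G fun _ => 0))
    (h1 : ∀ p, (rot p).1.1.fst = p.1.1.fst)
    (h2 : ∀ p q : Piece G (fun _ => 0), p.1.1.fst = q.1.1.fst → rot.SameCycle p q) :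
    Drawing G where
  cr := fun _ => 0
  cr_symm _ := rfl
  rot := rot
  rot_vertex p _ := ⟨Nat.le_zero.mp (rot p).2, h1 p⟩
  rot_sameCycle p q _ _ h := h2 p q h
  rot_rot p hp := absurd (Nat.le_zero.mp p.2) hp.ne'
  rot_edge p hp := absurd (Nat.le_zero.mp p.2) hp.ne'

theorem restrict [Finite V] [Finite W] (D : Drawing (G ⊕g H)) (h0 : ∀ a, D.cr a = 0) :
    ∃ (D1 : Drawing G) (D2 : Drawing H), (∀ a, D1.cr a = 0) ∧ (∀ a, D2.cr a = 0) ∧
      D.eulerGenus = D1.eulerGenus + D2.eulerGenus := by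
  have hl : ∀ a : G.Dart, D.cr (dl H a) = (fun _ : G.Dart => 0) a := fun a => h0 _
  have hr : ∀ a : H.Dart, D.cr (dr G a) = (fun _ : H.Dart => 0) a := fun a => h0 _
  set e := pieceSum hl hr with he
  have hz : ∀ p : Piece (G ⊕g H) D.cr, p.1.2 = 0 := by
    intro p
    exact Nat.le_zero.mp (by rw [← h0 p.1.1]; exact p.2)
  set σ := e.symm.permCongr D.rot with hσ
  have hσe : ∀ x, e (σ x) = D.rot (e x) := by
    intro x
    rw [hσ, Equiv.permCongr_apply, Equiv.symm_symm, Equiv.apply_symm_apply]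
  have hmaps : Set.MapsTo σ (Set.range Sum.inl) (Set.range Sum.inl) := by
    rintro _ ⟨p, rfl⟩
    rcases hx : σ (Sum.inl p) with q | q
    · exact ⟨q, rfl⟩
    · exfalso
      have h1 := hσe (Sum.inl p)
      rw [hx] at h1
      have h2 := (D.rot_vertex (e (Sum.inl p)) (hz _)).2
      rw [← h1] at h2
      have h3 : (Sum.inr q.1.1.fst : V ⊕ W) = Sum.inl p.1.1.fst := h2
      cases h3
  obtain ⟨⟨σ1, σ2⟩, hs⟩ := Equiv.Perm.mem_sumCongrHom_range_of_perm_mapsTo_inl hmaps
  have hs' : σ = Equiv.sumCongr σ1 σ2 := hs.symm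
  have rot1 : ∀ p, D.rot (e (Sum.inl p)) = e (Sum.inl (σ1 p)) := by
    intro p; rw [← hσe, hs']; rfl
  have rot2 : ∀ p, D.rot (e (Sum.inr p)) = e (Sum.inr (σ2 p)) := by
    intro p; rw [← hσe, hs']; rfl
  have v1 : ∀ p, (σ1 p).1.1.fst = p.1.1.fst := by
    intro p
    have h := (D.rot_vertex (e (Sum.inl p)) (hz _)).2
    rw [rot1] at h
    exact Sum.inl.inj h
  have v2 : ∀ p, (σ2 p).1.1.fst = p.1.1.fst := by
    intro p
    have h := (D.rot_vertex (e (Sum.inr p)) (hz _)).2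
    rw [rot2] at h
    exact Sum.inr.inj h
  have c1 : ∀ p q : Piece G (fun _ => 0), p.1.1.fst = q.1.1.fst → σ1.SameCycle p q := by
    intro p q h
    apply sameCycle_of_map σ1 D.rot (fun p => e (Sum.inl p)) rot1
    · intro a b hab; exact Sum.inl.inj (e.injective hab)
    · exact D.rot_sameCycle _ _ (hz _) (hz _) (congrArg Sum.inl h)
  have c2 : ∀ p q : Piece H (fun _ => 0), p.1.1.fst = q.1.1.fst → σ2.SameCycle p q := by
    intro p q h
    apply sameCycle_of_map σ2 D.rot (fun p => e (Sum.inr p)) rot2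
    · intro a b hab; exact Sum.inr.inj (e.injective hab)
    · exact D.rot_sameCycle _ _ (hz _) (hz _) (congrArg Sum.inr h)
  refine ⟨flatDrawing G σ1 v1 c1, flatDrawing H σ2 v2 c2, fun _ => rfl, fun _ => rfl, ?_⟩
  have : Finite (Piece G (flatDrawing G σ1 v1 c1).cr) := finite_piece _
  have : Finite (Piece H (flatDrawing H σ2 v2 c2).cr) := finite_piece _
  apply eulerGenus_add D (flatDrawing G σ1 v1 c1) (flatDrawing H σ2 v2 c2) e rot1 rot2
  · intro p
    apply Subtype.ext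
    apply Prod.ext
    · rfl
    · change D.cr (dl H p.1.1) - p.1.2 = 0 - p.1.2
      rw [h0]
  · intro p
    apply Subtype.ext
    apply Prod.ext
    · rfl
    · change D.cr (dr G p.1.1) - p.1.2 = 0 - p.1.2
      rw [h0]

end Restrict

end Pool.Agent.H25.IACR
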