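import Pool.Agent.H60.IACR.Defs

/-!
# The Euler genus of drawings of disjoint unions
-/

namespace Pool.Agent.H25.IACR

open Pool.Agent.H60.IACR

section Quot

variable {A B C : Type*}

lemma card_quot_sum [Finite A] [Finite B] (e : A ⊕ B ≃ C) {r : A → A → Prop} {s : B → B → Prop}
    {t : C → C → Prop}
    (h1 : ∀ a a', t (e (Sum.inl a)) (e (Sum.inl a')) ↔ r a a')
    (h2 : ∀ b b', t (e (Sum.inr b)) (e (Sum.inr b')) ↔ s b b')
    (h3 : ∀ a b, ¬ t (e (Sum.inl a)) (e (Sum.inr b)))
    (h4 : ∀ a b, ¬ t (e (Sum.inr b)) (e (Sum.inl a))) :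
    Nat.card (Quot t) = Nat.card (Quot r) + Nat.card (Quot s) := by
  have : Finite (Quot r) := Finite.of_surjective _ Quot.mk_surjective
  have : Finite (Quot s) := Finite.of_surjective _ Quot.mk_surjective
  rw [← Nat.card_sum]
  refine Nat.card_congr ⟨Quot.lift (fun c => Sum.map (Quot.mk r) (Quot.mk s) (e.symm c)) ?_,
    Sum.elim (Quot.lift (fun a => Quot.mk t (e (Sum.inl a))) ?_)
      (Quot.lift (fun b => Quot.mk t (e (Sum.inr b))) ?_), ?_, ?_⟩
  · intro c c' h
    obtain ⟨x, rfl⟩ := e.surjective c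
    obtain ⟨y, rfl⟩ := e.surjective c'
    simp only [Equiv.symm_apply_apply]
    rcases x with a | b <;> rcases y with a' | b'
    · exact congrArg Sum.inl (Quot.sound ((h1 a a').mp h))
    · exact (h3 a b' h).elim
    · exact (h4 a' b h).elim
    · exact congrArg Sum.inr (Quot.sound ((h2 b b').mp h))
  · intro a a' h
    exact Quot.sound ((h1 a a').mpr h)
  · intro b b' h
    exact Quot.sound ((h2 b b').mpr h)
  · intro c
    induction c using Quot.ind with
    | mk c =>
      obtain ⟨x, rfl⟩ := e.surjective c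
      rcases x with a | b <;> simp
  · intro c
    rcases c with c | c
    · induction c using Quot.ind with
      | mk a => simp
    · induction c using Quot.ind with
      | mk b => simp

end Quot

variable {V W U : Type*} {G : SimpleGraph V} {H : SimpleGraph W} {S : SimpleGraph U}

/-- The Euler genus is additive. -/
theorem eulerGenus_add (D : Drawing S) (D1 : Drawing G) (D2 : Drawing H)
    [Finite (Piece G D1.cr)] [Finite (Piece H D2.cr)]
    (e : Piece G D1.cr ⊕ Piece H D2.cr ≃ Piece S D.cr)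
    (rot1 : ∀ p, D.rot (e (Sum.inl p)) = e (Sum.inl (D1.rot p)))
    (rot2 : ∀ p, D.rot (e (Sum.inr p)) = e (Sum.inr (D2.rot p)))
    (rev1 : ∀ p, D.rev (e (Sum.inl p)) = e (Sum.inl (D1.rev p)))
    (rev2 : ∀ p, D.rev (e (Sum.inr p)) = e (Sum.inr (D2.rev p))) :
    D.eulerGenus = D1.eulerGenus + D2.eulerGenus := by
  have hP : D.numPoints = D1.numPoints + D2.numPoints := by
    apply card_quot_sum e
    · intro a a'; rw [rot1, e.injective.eq_iff, Sum.inl.injEq]
    · intro a a'; rw [rot2, e.injective.eq_iff, Sum.inr.injEq]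
    · intro a a'; rw [rot1, e.injective.eq_iff]; simp
    · intro a a'; rw [rot2, e.injective.eq_iff]; simp
  have hE : D.numPieces = D1.numPieces + D2.numPieces := by
    apply card_quot_sum e
    · intro a a'; rw [rev1, e.injective.eq_iff, Sum.inl.injEq]
    · intro a a'; rw [rev2, e.injective.eq_iff, Sum.inr.injEq]
    · intro a a'; rw [rev1, e.injective.eq_iff]; simp
    · intro a a'; rw [rev2, e.injective.eq_iff]; simp
  have hF : D.numFaces = D1.numFaces + D2.numFaces := by
    apply card_quot_sum e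
    · intro a a'; rw [rot1, rev1, e.injective.eq_iff, Sum.inl.injEq]
    · intro a a'; rw [rot2, rev2, e.injective.eq_iff, Sum.inr.injEq]
    · intro a a'; rw [rot1, rev1, e.injective.eq_iff]; simp
    · intro a a'; rw [rot2, rev2, e.injective.eq_iff]; simp
  have hC : D.numComponents = D1.numComponents + D2.numComponents := by
    apply card_quot_sum e
    · intro a a'
      rw [rot1, rev1, e.injective.eq_iff, e.injective.eq_iff, Sum.inl.injEq, Sum.inl.injEq]
    · intro a a'
      rw [rot2, rev2, e.injective.eq_iff, e.injective.eq_iff, Sum.inr.injEq, Sum.inr.injEq]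
    · intro a a'; rw [rot1, rev1, e.injective.eq_iff, e.injective.eq_iff]; simp
    · intro a a'; rw [rot2, rev2, e.injective.eq_iff, e.injective.eq_iff]; simp
  unfold Drawing.eulerGenus
  rw [hP, hE, hF, hC]
  push_cast
  ring

/-- darts of the first graph -/
def dl (H : SimpleGraph W) (a : G.Dart) : (G ⊕g H).Dart :=
  ⟨(Sum.inl a.fst, Sum.inl a.snd), a.adj⟩

/-- darts of the second graph -/
def dr (G : SimpleGraph V) (a : H.Dart) : (G ⊕g H).Dart :=
  ⟨(Sum.inr a.fst, Sum.inr a.snd), a.adj⟩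

lemma dl_symm (a : G.Dart) : (dl H a).symm = dl H a.symm := rfl
lemma dr_symm (a : H.Dart) : (dr G a).symm = dr G a.symm := rfl
lemma dl_fst (a : G.Dart) : (dl H a).fst = Sum.inl a.fst := rfl
lemma dl_snd (a : G.Dart) : (dl H a).snd = Sum.inl a.snd := rfl
lemma dr_fst (a : H.Dart) : (dr G a).fst = Sum.inr a.fst := rfl
lemma dr_snd (a : H.Dart) : (dr G a).snd = Sum.inr a.snd := rfl

lemma dl_inj {a b : G.Dart} : dl H a = dl H b ↔ a = b := by
  constructor
  · intro h
    apply SimpleGraph.Dart.ext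
    have h1 : (Sum.inl a.fst : V ⊕ W) = Sum.inl b.fst := congrArg (fun d => d.fst) h
    have h2 : (Sum.inl a.snd : V ⊕ W) = Sum.inl b.snd := congrArg (fun d => d.snd) h
    exact Prod.ext (Sum.inl.inj h1) (Sum.inl.inj h2)
  · intro h; rw [h]

lemma dr_inj {a b : H.Dart} : dr G a = dr G b ↔ a = b := by
  constructor
  · intro h
    apply SimpleGraph.Dart.ext
    have h1 : (Sum.inr a.fst : V ⊕ W) = Sum.inr b.fst := congrArg (fun d => d.fst) h
    have h2 : (Sum.inr a.snd : V ⊕ W) = Sum.inr b.snd := congrArg (fun d => d.snd) h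
    exact Prod.ext (Sum.inr.inj h1) (Sum.inr.inj h2)
  · intro h; rw [h]

lemma dl_ne_dr (a : G.Dart) (b : H.Dart) : dl H a ≠ dr G b := by
  intro h
  have h1 : (Sum.inl a.fst : V ⊕ W) = Sum.inr b.fst := congrArg (fun d => d.fst) h
  cases h1

lemma exists_dart (d : (G ⊕g H).Dart) : (∃ a : G.Dart, d = dl H a) ∨ ∃ b : H.Dart, d = dr G b := by
  obtain ⟨⟨u, v⟩, h⟩ := d
  rcases u with u | u <;> rcases v with v | v
  · exact Or.inl ⟨⟨(u, v), h⟩, rfl⟩
  · exact absurd h (by simp)
  · exact absurd h (by simp)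
  · exact Or.inr ⟨⟨(u, v), h⟩, rfl⟩

/-- the darts of the disjoint union -/
noncomputable def dartSum (G : SimpleGraph V) (H : SimpleGraph W) :
    G.Dart ⊕ H.Dart ≃ (G ⊕g H).Dart :=
  Equiv.ofBijective (Sum.elim (dl H) (dr G)) (by
    constructor
    · rintro (a | a) (b | b) h
      · exact congrArg Sum.inl (dl_inj.mp h)
      · exact (dl_ne_dr a b h).elim
      · exact (dl_ne_dr b a h.symm).elim
      · exact congrArg Sum.inr (dr_inj.mp h)
    · intro d
      rcases exists_dart d with ⟨a, rfl⟩ | ⟨b, rfl⟩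
      · exact ⟨Sum.inl a, rfl⟩
      · exact ⟨Sum.inr b, rfl⟩)

lemma dartSum_inl (a : G.Dart) : dartSum G H (Sum.inl a) = dl H a := rfl
lemma dartSum_inr (a : H.Dart) : dartSum G H (Sum.inr a) = dr G a := rfl
lemma dartSum_symm_dl (a : G.Dart) : (dartSum G H).symm (dl H a) = Sum.inl a := by
  rw [Equiv.symm_apply_eq]; rfl
lemma dartSum_symm_dr (a : H.Dart) : (dartSum G H).symm (dr G a) = Sum.inr a := by
  rw [Equiv.symm_apply_eq]; rfl

section Pieces

variable {c1 : G.Dart → ℕ} {c2 : H.Dart → ℕ} {c : (G ⊕g H).Dart → ℕ}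
  (h1 : ∀ a, c (dl H a) = c1 a) (h2 : ∀ b, c (dr G b) = c2 b)

/-- pieces of the first drawing -/
def pl (p : Piece G c1) : Piece (G ⊕g H) c :=
  ⟨(dl H p.1.1, p.1.2), by rw [h1]; exact p.2⟩

/-- pieces of the second drawing -/
def pr (p : Piece H c2) : Piece (G ⊕g H) c :=
  ⟨(dr G p.1.1, p.1.2), by rw [h2]; exact p.2⟩

lemma pl_inj {p q : Piece G c1} : pl h1 p = pl h1 q ↔ p = q := by
  constructor
  · intro h
    apply Subtype.ext
    have h3 : dl H p.1.1 = dl H q.1.1 := congrArg (fun x : Piece (G ⊕g H) c => x.1.1) h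
    have h4 : p.1.2 = q.1.2 := congrArg (fun x : Piece (G ⊕g H) c => x.1.2) h
    exact Prod.ext (dl_inj.mp h3) h4
  · intro h; rw [h]

lemma pr_inj {p q : Piece H c2} : pr h2 p = pr h2 q ↔ p = q := by
  constructor
  · intro h
    apply Subtype.ext
    have h3 : dr G p.1.1 = dr G q.1.1 := congrArg (fun x : Piece (G ⊕g H) c => x.1.1) h
    have h4 : p.1.2 = q.1.2 := congrArg (fun x : Piece (G ⊕g H) c => x.1.2) h
    exact Prod.ext (dr_inj.mp h3) h4
  · intro h; rw [h]

lemma pl_ne_pr (p : Piece G c1) (q : Piece H c2) : pl h1 p ≠ pr h2 q := by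
  intro h
  exact dl_ne_dr _ _ (congrArg (fun x : Piece (G ⊕g H) c => x.1.1) h)

/-- the pieces of a drawing of the disjoint union -/
noncomputable def pieceSum : Piece G c1 ⊕ Piece H c2 ≃ Piece (G ⊕g H) c :=
  Equiv.ofBijective (Sum.elim (pl h1) (pr h2)) (by
    constructor
    · rintro (a | a) (b | b) h
      · exact congrArg Sum.inl ((pl_inj h1).mp h)
      · exact (pl_ne_pr h1 h2 a b h).elim
      · exact (pl_ne_pr h1 h2 b a h.symm).elim
      · exact congrArg Sum.inr ((pr_inj h2).mp h)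
    · rintro ⟨⟨d, n⟩, hn⟩
      rcases exists_dart d with ⟨a, rfl⟩ | ⟨b, rfl⟩
      · exact ⟨Sum.inl ⟨(a, n), by rw [← h1]; exact hn⟩, rfl⟩
      · exact ⟨Sum.inr ⟨(b, n), by rw [← h2]; exact hn⟩, rfl⟩)

lemma pieceSum_inl (p : Piece G c1) : pieceSum h1 h2 (Sum.inl p) = pl h1 p := rfl
lemma pieceSum_inr (p : Piece H c2) : pieceSum h1 h2 (Sum.inr p) = pr h2 p := rfl

end Pieces

end Pool.Agent.H25.IACR
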