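import Pool.Agent.H25.IACR.Glue
import Pool.Agent.H60.IACR.Upper

/-!
# The complete graph with seven vertices has genus one
-/

namespace Pool.Agent.H25.IACR

open Pool.Agent.H60.IACR

/-- the complete graph on seven vertices -/
abbrev K7 : SimpleGraph (Fin 7) := ⊤

/-- darts: `(u, k)` goes from `u` to `u + 3 ^ k` (modulo 7) -/
abbrev T := Fin 7 × Fin 6

/-- powers of three modulo seven -/
def pw : Fin 6 → Fin 7 := ![1, 3, 2, 6, 4, 5]

/-- logarithms -/
def lg : Fin 7 → Fin 6 := ![0, 0, 2, 1, 4, 5, 3]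

/-- end of a dart -/
def tgt (x : T) : Fin 7 := x.1 + pw x.2

lemma tgt_ne : ∀ x : T, x.1 ≠ tgt x := by decide

lemma lg_spec : ∀ x : T, lg (tgt x - x.1) = x.2 := by decide

lemma tgt_lg : ∀ u v : Fin 7, u ≠ v → tgt (u, lg (v - u)) = v := by decide

/-- darts of `K7` -/
def toDart (x : T) : K7.Dart := ⟨(x.1, tgt x), tgt_ne x⟩

/-- rotation -/
def rotT : Equiv.Perm T where
  toFun x := (x.1, x.2 + 1)
  invFun x := (x.1, x.2 - 1)
  left_inv x := by simp
  right_inv x := by simp

/-- reversal -/
def revT (x : T) : T := (tgt x, x.2 + 3)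

lemma toDart_symm (x : T) : (toDart x).symm = toDart (revT x) := by
  apply SimpleGraph.Dart.ext
  change (tgt x, x.1) = (tgt x, tgt (revT x))
  have h : ∀ x : T, x.1 = tgt (revT x) := by decide
  rw [← h]

lemma pieces_ext {V : Type*} {G : SimpleGraph V} {c : G.Dart → ℕ} (h0 : ∀ a, c a = 0)
    {p q : Piece G c} (h : p.1.1 = q.1.1) : p = q := by
  apply Subtype.ext
  apply Prod.ext h
  have h1 : p.1.2 = 0 := Nat.le_zero.mp (by rw [← h0 p.1.1]; exact p.2)
  have h2 : q.1.2 = 0 := Nat.le_zero.mp (by rw [← h0 q.1.1]; exact q.2)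
  rw [h1, h2]

/-- pieces of a drawing of `K7` without crossings -/
def eT (c : K7.Dart → ℕ) (h0 : ∀ a, c a = 0) : T ≃ Piece K7 c where
  toFun x := ⟨(toDart x, 0), Nat.zero_le _⟩
  invFun p := (p.1.1.fst, lg (p.1.1.snd - p.1.1.fst))
  left_inv x := Prod.ext rfl (lg_spec x)
  right_inv p := by
    apply pieces_ext h0
    apply SimpleGraph.Dart.ext
    have h : p.1.1.fst ≠ p.1.1.snd := p.1.1.adj
    exact Prod.ext rfl (tgt_lg _ _ h)

lemma quot_pow {A : Type*} (f : Equiv.Perm A) (n : ℕ) (a : A) :
    Quot.mk (fun p q : A => f p = q) ((f ^ n) a) = Quot.mk _ a := by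
  induction n with
  | zero => rfl
  | succ n ih =>
    rw [← ih, pow_succ', Equiv.Perm.mul_apply]
    exact (Quot.sound (r := fun p q : A => f p = q) rfl).symm

section K7

variable (D : Drawing K7) (h0 : ∀ a, D.cr a = 0)

include h0

lemma K7_z (p : Piece K7 D.cr) : p.1.2 = 0 := Nat.le_zero.mp (by rw [← h0 p.1.1]; exact p.2)

lemma K7_rev (p : Piece K7 D.cr) : D.rev (D.rev p) = p :=
  pieces_ext h0 (SimpleGraph.Dart.symm_symm p.1.1)

omit h0 in
lemma K7_rev_ne (p : Piece K7 D.cr) : D.rev p ≠ p := by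
  intro h
  have h1 : p.1.1.symm = p.1.1 := congrArg (fun q : Piece K7 D.cr => q.1.1) h
  exact SimpleGraph.Dart.symm_ne p.1.1 h1

lemma K7_pieces : D.numPieces = 21 := by
  classical
  let : Fintype (Piece K7 D.cr) := Fintype.ofEquiv _ (eT D.cr h0)
  have hcard : Fintype.card (Piece K7 D.cr) = 42 := by
    rw [← Fintype.card_congr (eT D.cr h0)]; rfl
  have h1 := card_P (Function.Involutive.toPerm D.rev (K7_rev D h0)) (K7_rev D h0) (K7_rev_ne D)
  have h2 : D.numPieces =
      Nat.card (Quot (relE (Function.Involutive.toPerm D.rev (K7_rev D h0)))) := rfl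
  rw [h2]
  omega

lemma K7_points : D.numPoints ≤ 7 := by
  have hfin : Finite (Piece K7 D.cr) := finite_piece _
  have h : Nat.card (Quot fun p q : Piece K7 D.cr => D.rot p = q) ≤ Nat.card (Fin 7) := by
    refine Nat.card_le_card_of_surjective (fun u => Quot.mk _ (eT D.cr h0 (u, 0))) ?_
    intro x
    induction x using Quot.ind with
    | mk p =>
      refine ⟨p.1.1.fst, ?_⟩
      obtain ⟨n, hn⟩ := (D.rot_sameCycle (eT D.cr h0 (p.1.1.fst, 0)) p (K7_z D h0 _)
        (K7_z D h0 _) rfl).exists_nat_pow_eq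
      have h2 := quot_pow D.rot n (eT D.cr h0 (p.1.1.fst, 0))
      rw [hn] at h2
      exact h2.symm
  rw [Nat.card_eq_fintype_card (α := Fin 7), Fintype.card_fin] at h
  exact h

/-- the face permutation has no fixed point ... -/
lemma K7_face1 (p : Piece K7 D.cr) : D.rev (D.rot p) ≠ p := by
  intro h
  have h1 : (D.rot p).1.1.symm = p.1.1 := congrArg (fun q : Piece K7 D.cr => q.1.1) h
  have h2 := (D.rot_vertex p (K7_z D h0 p)).2
  have h3 : (D.rot p).1.1.fst = p.1.1.snd := congrArg (fun d : K7.Dart => d.snd) h1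
  have h4 : p.1.1.fst ≠ p.1.1.snd := p.1.1.adj
  exact h4 (h2.symm.trans h3)

/-- ... and no cycle of length two -/
lemma K7_face2 (p : Piece K7 D.cr) : D.rev (D.rot (D.rev (D.rot p))) ≠ p := by
  intro h
  have h1 : (D.rot (D.rev (D.rot p))).1.1.symm = p.1.1 :=
    congrArg (fun q : Piece K7 D.cr => q.1.1) h
  have h2 := (D.rot_vertex p (K7_z D h0 p)).2
  have h3 := (D.rot_vertex (D.rev (D.rot p)) (K7_z D h0 _)).2
  have h4 : (D.rot (D.rev (D.rot p))).1.1.fst = p.1.1.snd :=
    congrArg (fun d : K7.Dart => d.snd) h1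
  have h5 : (D.rev (D.rot p)).1.1.fst = (D.rot p).1.1.snd := rfl
  have h6 : (D.rot p).1.1.snd = p.1.1.snd := by rw [← h5, ← h3, h4]
  have h7 : D.rot p = p := by
    apply pieces_ext h0
    apply SimpleGraph.Dart.ext
    exact Prod.ext h2 h6
  have h8 : ∀ q : Piece K7 D.cr, q.1.1.fst = p.1.1.fst → q = p := by
    intro q hq
    have hs := D.rot_sameCycle p q (K7_z D h0 p) (K7_z D h0 q) hq.symm
    have hfin : Finite (Piece K7 D.cr) := finite_piece _
    obtain ⟨n, hn⟩ := hs.exists_nat_pow_eq
    rw [← hn]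
    clear hn hs
    induction n with
    | zero => rfl
    | succ n ih => rw [pow_succ', Equiv.Perm.mul_apply, ih, h7]
  have h9 := h8 (eT D.cr h0 (p.1.1.fst, 0)) rfl
  have h10 := h8 (eT D.cr h0 (p.1.1.fst, 1)) rfl
  have h11 := (eT D.cr h0).injective (h9.trans h10.symm)
  have h12 : (0 : Fin 6) = 1 := congrArg Prod.snd h11
  exact absurd h12 (by decide)

lemma K7_faces : 3 * D.numFaces ≤ 42 := by
  have hfin : Finite (Piece K7 D.cr) := finite_piece _
  set r : Piece K7 D.cr → Piece K7 D.cr → Prop := fun p q => D.rev (D.rot p) = q with hr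
  set φ : Piece K7 D.cr → Piece K7 D.cr := fun p => D.rev (D.rot p) with hφ
  have hinj : Function.Injective φ := by
    intro p q h
    have h1 := congrArg D.rev h
    rw [hφ] at h1
    simp only at h1
    rw [K7_rev D h0, K7_rev D h0] at h1
    exact D.rot.injective h1
  have hq : ∀ p, Quot.mk r (φ p) = Quot.mk r p := fun p => (Quot.sound (r := r) rfl).symm
  have hf : Function.Injective (fun x : Quot r × Fin 3 => φ^[x.2.val] (Quot.out x.1)) := by
    have hmk : ∀ (n : ℕ) (p : Piece K7 D.cr), Quot.mk r (φ^[n] p) = Quot.mk r p := by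
      intro n
      induction n with
      | zero => intro p; rfl
      | succ n ih => intro p; rw [Function.iterate_succ_apply, ih, hq]
    have key : ∀ (c : Quot r) (i j : Fin 3), i < j →
        φ^[i.val] (Quot.out c) ≠ φ^[j.val] (Quot.out c) := by
      intro c i j hij h
      have h1 : j.val = i.val + (j.val - i.val) := by
        have : i.val < j.val := hij
        omega
      rw [h1, Function.iterate_add_apply] at h
      have h2 := (hinj.iterate i.val) h
      have h3 : j.val - i.val = 1 ∨ j.val - i.val = 2 := by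
        have : i.val < j.val := hij
        have := j.isLt
        omega
      rcases h3 with h3 | h3
      · rw [h3] at h2
        exact K7_face1 D h0 _ h2.symm
      · rw [h3] at h2
        exact K7_face2 D h0 _ h2.symm
    rintro ⟨c, i⟩ ⟨c', j⟩ h
    simp only at h
    have hc : c = c' := by
      have h1 := congrArg (Quot.mk r) h
      rw [hmk, hmk, Quot.out_eq, Quot.out_eq] at h1
      exact h1
    subst hc
    rcases lt_trichotomy i j with hij | hij | hij
    · exact (key c i j hij h).elim
    · rw [hij]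
    · exact (key c j i hij h.symm).elim
  have h1 := Nat.card_le_card_of_injective _ hf
  rw [Nat.card_prod, Nat.card_congr (eT D.cr h0).symm] at h1
  have h2 : Nat.card T = 42 := by rw [Nat.card_eq_fintype_card]; rfl
  have h3 : Nat.card (Fin 3) = 3 := by simp
  rw [h2, h3] at h1
  have h4 : D.numFaces = Nat.card (Quot r) := rfl
  rw [h4]
  omega

theorem K7_lower : 2 ≤ D.eulerGenus := by
  have hfin : Finite (Piece K7 D.cr) := finite_piece _
  have hC : 1 ≤ D.numComponents := by
    have h1 : Nonempty (Quot fun p q : Piece K7 D.cr => D.rot p = q ∨ D.rev p = q) :=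
      ⟨Quot.mk _ (eT D.cr h0 (0, 0))⟩
    have h2 : Finite (Quot fun p q : Piece K7 D.cr => D.rot p = q ∨ D.rev p = q) :=
      Finite.of_surjective _ Quot.mk_surjective
    exact Nat.card_pos
  have hP := K7_points D h0
  have hE := K7_pieces D h0
  have hF := K7_faces D h0
  unfold Drawing.eulerGenus
  rw [hE]
  push_cast
  omega

end K7

/-- rotation of the pieces -/
def rotP7 : Equiv.Perm (Piece K7 fun _ => 0) := (eT _ fun _ => rfl).permCongr rotT

lemma rotP7_apply (x : T) : rotP7 (eT _ (fun _ => rfl) x) = eT _ (fun _ => rfl) (rotT x) := by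
  rw [rotP7, Equiv.permCongr_apply, Equiv.symm_apply_apply]

lemma rotT_pow (n : ℕ) (u : Fin 7) (k : Fin 6) : (rotT ^ n) (u, k) = (u, k + (Fin.ofNat 6 n)) := by
  induction n with
  | zero => simp
  | succ n ih =>
    rw [pow_succ', Equiv.Perm.mul_apply, ih]
    change (u, k + Fin.ofNat 6 n + 1) = _
    rw [add_assoc]
    congr 2
    apply Fin.ext
    simp [Fin.ofNat, Fin.add_def]

lemma rotT_sameCycle (x y : T) (h : x.1 = y.1) : rotT.SameCycle x y := by
  refine ⟨((y.2 - x.2).val : ℤ), ?_⟩
  rw [zpow_natCast]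
  obtain ⟨u, k⟩ := x
  obtain ⟨v, l⟩ := y
  simp only at h
  subst h
  rw [rotT_pow]
  have h1 : Fin.ofNat 6 (l - k).val = l - k := Fin.ext (Nat.mod_eq_of_lt (l - k).isLt)
  have h2 : k + Fin.ofNat 6 (l - k).val = l := by rw [h1]; simp
  exact congrArg (Prod.mk u) h2

/-- the drawing of `K7` on the torus -/
def torus : Drawing K7 :=
  flatDrawing K7 rotP7
    (by
      intro p
      obtain ⟨x, rfl⟩ := (eT _ fun _ => rfl).surjective p
      rw [rotP7_apply]
      rfl)
    (by
      intro p q h
      obtain ⟨x, rfl⟩ := (eT _ fun _ => rfl).surjective p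
      obtain ⟨y, rfl⟩ := (eT _ fun _ => rfl).surjective q
      exact sameCycle_map rotT rotP7 _ rotP7_apply (rotT_sameCycle x y h))

lemma torus_cr (a : K7.Dart) : torus.cr a = 0 := rfl

/-- pieces of the drawing on the torus -/
def eU : Piece K7 torus.cr ≃ T := (eT torus.cr torus_cr).symm

lemma torus_rot (x : T) : torus.rot (eT torus.cr torus_cr x) = eT torus.cr torus_cr (rotT x) :=
  rotP7_apply x

lemma torus_rev (x : T) : torus.rev (eT torus.cr torus_cr x) = eT torus.cr torus_cr (revT x) :=
  pieces_ext torus_cr (toDart_symm x)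

/-- labels of the faces -/
def labT (x : T) : ℕ :=
  match x.2 with
  | 0 => x.1.val
  | 1 => 7 + x.1.val
  | 2 => (x.1 - 1).val
  | 3 => 7 + (x.1 - 3).val
  | 4 => (x.1 - 3).val
  | 5 => 7 + (x.1 - 2).val

lemma labT_spec : ∀ x : T, labT (revT (rotT x)) = labT x := by decide

lemma labT_lt : ∀ x : T, labT x < 14 := by decide

/-- representatives of the faces -/
def repT (l : ℕ) : T := if l < 7 then (Fin.ofNat 7 l, 0) else (Fin.ofNat 7 l, 1)

lemma labT_rep : ∀ l < 14, labT (repT l) = l := by decide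

lemma torus_points : 7 ≤ torus.numPoints := by
  have h : torus.numPoints = Nat.card (Quot fun p q : T => rotT p = q) := by
    refine (card_quot_congr (eT torus.cr torus_cr) fun p q => ?_).symm
    rw [torus_rot]
    exact (eT torus.cr torus_cr).injective.eq_iff.symm
  rw [h]
  refine quot_ge _ 7 (fun x => x.1.val) ?_ (fun x => x.1.isLt) (fun l => (Fin.ofNat 7 l, 0)) ?_
  · intro a b hab; rw [← hab]; rfl
  · intro l hl; exact Nat.mod_eq_of_lt hl

lemma torus_faces : 14 ≤ torus.numFaces := by
  have h : torus.numFaces = Nat.card (Quot fun p q : T => revT (rotT p) = q) := by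
    refine (card_quot_congr (eT torus.cr torus_cr) fun p q => ?_).symm
    rw [torus_rot, torus_rev]
    exact (eT torus.cr torus_cr).injective.eq_iff.symm
  rw [h]
  exact quot_ge _ 14 labT (fun a b hab => by rw [← hab, labT_spec]) labT_lt repT labT_rep

lemma quot_const {A : Type*} (r : A → A → Prop) (a : A)
    (h : ∀ b, Quot.mk r b = Quot.mk r a) : Nat.card (Quot r) ≤ 1 := by
  have : Subsingleton (Quot r) := by
    refine ⟨fun x y => ?_⟩
    induction x using Quot.ind with
    | mk p =>
      induction y using Quot.ind with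
      | mk q => rw [h p, h q]
  exact Finite.card_le_one_iff_subsingleton.mpr this

lemma torus_components : torus.numComponents ≤ 1 := by
  have h : torus.numComponents = Nat.card (Quot fun p q : T => rotT p = q ∨ revT p = q) := by
    refine (card_quot_congr (eT torus.cr torus_cr) fun p q => ?_).symm
    rw [torus_rot, torus_rev, (eT torus.cr torus_cr).injective.eq_iff,
      (eT torus.cr torus_cr).injective.eq_iff]
  rw [h]
  set r : T → T → Prop := fun p q => rotT p = q ∨ revT p = q with hr
  have hrot : ∀ (n : ℕ) (x : T), Quot.mk r ((rotT ^ n) x) = Quot.mk r x := by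
    intro n
    induction n with
    | zero => intro x; rfl
    | succ n ih =>
      intro x
      rw [← ih x, pow_succ', Equiv.Perm.mul_apply]
      exact (Quot.sound (r := r) (Or.inl rfl)).symm
  have hv : ∀ x y : T, x.1 = y.1 → Quot.mk r x = Quot.mk r y := by
    intro x y hxy
    obtain ⟨n, hn⟩ := (rotT_sameCycle x y hxy).exists_nat_pow_eq
    rw [← hn, hrot]
  refine quot_const r (0, 0) ?_
  intro x
  by_cases h0 : x.1 = 0
  · exact hv x (0, 0) h0
  · have h1 : Quot.mk r x = Quot.mk r (x.1, lg (0 - x.1)) := hv _ _ rfl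
    have h2 : Quot.mk r (x.1, lg (0 - x.1)) = Quot.mk r (revT (x.1, lg (0 - x.1))) :=
      Quot.sound (Or.inr rfl)
    have h3 : (revT (x.1, lg (0 - x.1))).1 = 0 := tgt_lg _ _ h0
    rw [h1, h2]
    exact hv _ _ h3

theorem torus_onSurface : torus.eulerGenus ≤ 2 := by
  have h1 := torus_points
  have h2 := torus_faces
  have h3 := K7_pieces torus torus_cr
  have h4 := torus_components
  unfold Drawing.eulerGenus
  rw [h3]
  push_cast
  omega

lemma torus_algZero (a b : K7.Dart) : torus.fromLeft a b = torus.fromRight a b := by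
  unfold Drawing.fromLeft Drawing.fromRight
  rw [card_zero (fun p h => (K7_z torus torus_cr p ▸ h.2.1).false),
    card_zero (fun p h => (K7_z torus torus_cr p ▸ h.2.1).false)]

end Pool.Agent.H25.IACR
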